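import Mathlib
import Pool.Agent.Helper54.PW.Defs

/-! # PW-E: crossed homomorphisms -/

set_option autoImplicit false
open scoped Pointwise

namespace Pool.Agent.Helper54.PW

private theorem rep_mem {Q : Type} [Group Q] {W : Subgroup Q} [W.Normal] (g : Q) (h : Q ⧸ W) :
    (((g : Q ⧸ W) * h).out)⁻¹ * (g * h.out) ∈ W := by
  rw [← QuotientGroup.eq_one_iff]
  simp

private theorem kappa_mem {Q : Type} [Group Q] {W : Subgroup Q} [W.Normal] (g : Q) (h : Q ⧸ W) :
    g * h.out * (((g : Q ⧸ W) * h).out)⁻¹ ∈ W := by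
  rw [← QuotientGroup.eq_one_iff]
  simp

private theorem act_rep {Q : Type} [Group Q] {W : Subgroup Q} [W.Normal] {E : Type} [Field E]
    (act : Q → E →+* E) (hmul : ∀ g h x, act (g * h) x = act g (act h x))
    (hone : ∀ w ∈ W, ∀ x, act w x = x) (k g : Q) (h : Q ⧸ W) (b : E) :
    act (k * (g * h.out)) b = act (k * ((g : Q ⧸ W) * h).out) b := by
  have h1 : k * (g * h.out) = (k * ((g : Q ⧸ W) * h).out) *
      ((((g : Q ⧸ W) * h).out)⁻¹ * (g * h.out)) := by group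
  rw [h1, hmul, hone _ (rep_mem g h)]

theorem exists_crossed {p : ℕ} [Fact p.Prime] {Q : Type} [Group Q] {W : Subgroup Q} [W.Normal]
    [Fintype (Q ⧸ W)] {E : Type} [Field E] [CharP E p] (act : Q → E →+* E)
    (hmul : ∀ g h x, act (g * h) x = act g (act h x)) (hone : ∀ w ∈ W, ∀ x, act w x = x)
    (b : E) (hb : ∑ h : Q ⧸ W, act h.out b = 1) (R : Subring E) (hR : ∀ q, act q b ∈ R) :
    ∃ β : Q → TT p W E, (∀ g h, β (g * h) = β g + st p g (act g) (β h)) ∧
      (∀ w : W, β w = ev p E w) ∧ ∀ g χ, β g χ ∈ R := by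
  have hcast : ∀ (g : Q) (z : ZMod p), act g (ZMod.castHom (dvd_refl p) E z) =
      ZMod.castHom (dvd_refl p) E z := by
    intro g z
    obtain ⟨n, rfl⟩ : ∃ n : ℕ, (n : ZMod p) = z := ⟨z.val, by simp⟩
    simp
  let β : Q → TT p W E := fun g =>
    { toFun := fun χ => ∑ h : Q ⧸ W,
        ZMod.castHom (dvd_refl p) E (χ (Additive.ofMul
          (⟨g * h.out * (((g : Q ⧸ W) * h).out)⁻¹, kappa_mem g h⟩ : W))) * act (g * h.out) b
      map_zero' := by simp
      map_add' := by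
        intro χ ψ
        rw [← Finset.sum_add_distrib]
        refine Finset.sum_congr rfl fun h _ => ?_
        rw [AddMonoidHom.add_apply, map_add, add_mul] }
  have hβ : ∀ g χ, β g χ = ∑ h : Q ⧸ W,
        ZMod.castHom (dvd_refl p) E (χ (Additive.ofMul
          (⟨g * h.out * (((g : Q ⧸ W) * h).out)⁻¹, kappa_mem g h⟩ : W))) *
          act (g * h.out) b := fun g χ => rfl
  refine ⟨β, ?_, ?_, ?_⟩
  · intro g g'
    ext χ
    have hst : (st p g (act g) (β g')) χ = act g (β g' (cj p g χ)) := rfl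
    rw [AddMonoidHom.add_apply, hst, hβ, hβ, hβ, map_sum]
    have e1 : (∑ h : Q ⧸ W, ZMod.castHom (dvd_refl p) E (χ (Additive.ofMul
          (⟨g * h.out * (((g : Q ⧸ W) * h).out)⁻¹, kappa_mem g h⟩ : W))) * act (g * h.out) b) =
        ∑ h : Q ⧸ W, ZMod.castHom (dvd_refl p) E (χ (Additive.ofMul
          (⟨g * ((g' : Q ⧸ W) * h).out * (((g : Q ⧸ W) * ((g' : Q ⧸ W) * h)).out)⁻¹,
            kappa_mem g _⟩ : W))) * act (g * ((g' : Q ⧸ W) * h).out) b :=
      (Equiv.sum_comp (Equiv.mulLeft (g' : Q ⧸ W)) (fun h : Q ⧸ W =>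
        ZMod.castHom (dvd_refl p) E (χ (Additive.ofMul
          (⟨g * h.out * (((g : Q ⧸ W) * h).out)⁻¹, kappa_mem g h⟩ : W))) *
            act (g * h.out) b)).symm
    rw [e1, ← Finset.sum_add_distrib]
    refine Finset.sum_congr rfl fun h _ => ?_
    have e0 : act (g * g' * h.out) b = act (g * (g' * h.out)) b := by rw [mul_assoc]
    rw [map_mul, hcast, ← hmul, ← act_rep act hmul hone g g' h b, e0, add_comm, ← add_mul,
      ← map_add]
    congr 2
    have hcj : (cj p g χ) (Additive.ofMul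
          (⟨g' * h.out * (((g' : Q ⧸ W) * h).out)⁻¹, kappa_mem g' h⟩ : W)) =
        χ (Additive.ofMul (MulAut.conjNormal (H := W) g
          (⟨g' * h.out * (((g' : Q ⧸ W) * h).out)⁻¹, kappa_mem g' h⟩ : W))) := rfl
    rw [hcj, ← map_add, ← ofMul_mul]
    congr 2
    apply Subtype.ext
    have hq : ((g * g' : Q) : Q ⧸ W) * h = (g : Q ⧸ W) * ((g' : Q ⧸ W) * h) := by
      rw [QuotientGroup.mk_mul, mul_assoc]
    rw [Subgroup.coe_mul, MulAut.conjNormal_apply]
    simp only [hq]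
    group
  · intro w
    ext χ
    rw [hβ]
    have hw1 : ((w : Q) : Q ⧸ W) = 1 := (QuotientGroup.eq_one_iff _).2 w.2
    have hev : (ev p E w) χ = ZMod.castHom (dvd_refl p) E (χ (Additive.ofMul w)) := rfl
    rw [hev, ← mul_one (ZMod.castHom (dvd_refl p) E (χ (Additive.ofMul w))), ← hb,
      Finset.mul_sum]
    refine Finset.sum_congr rfl fun h _ => ?_
    have h1 : (⟨(w : Q) * h.out * ((((w : Q) : Q ⧸ W) * h).out)⁻¹, kappa_mem (w : Q) h⟩ : W) =
        w := by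
      apply Subtype.ext
      simp [hw1]
    rw [h1, hmul, hone _ w.2]
  · intro g χ
    rw [hβ]
    refine Subring.sum_mem _ fun h _ => R.mul_mem ?_ (hR _)
    obtain ⟨n, hn⟩ : ∃ n : ℕ, (n : ZMod p) = χ (Additive.ofMul
          (⟨g * h.out * (((g : Q ⧸ W) * h).out)⁻¹, kappa_mem g h⟩ : W)) :=
      ⟨_, ZMod.natCast_zmod_val _⟩
    rw [← hn, map_natCast]
    exact natCast_mem R n

theorem crossed_coboundary {Q : Type} [Group Q] {W : Subgroup Q} [W.Normal] [Fintype (Q ⧸ W)]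
    {E : Type} [Field E] (act : Q → E →+* E) (hmul : ∀ g h x, act (g * h) x = act g (act h x))
    (hone : ∀ w ∈ W, ∀ x, act w x = x) (b : E) (hb : ∑ h : Q ⧸ W, act h.out b = 1)
    {M : Type} [AddCommGroup M] [Module E M] (ρ : Q → M →+ M)
    (hρ : ∀ g h m, ρ (g * h) m = ρ g (ρ h m)) (hρs : ∀ g (x : E) m, ρ g (x • m) = act g x • ρ g m)
    (f : Q → M) (hf : ∀ g h, f (g * h) = f g + ρ g (f h)) (hW : ∀ w ∈ W, f w = 0)
    (S : AddSubgroup M) (hS : ∀ g, act g b • f g ∈ S) :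
    ∃ a ∈ S, ∀ g, f g = ρ g a - a := by
  refine ⟨- ∑ h : Q ⧸ W, act h.out b • f h.out,
    S.neg_mem (S.sum_mem fun h _ => hS _), ?_⟩
  intro g
  have hfr : ∀ h : Q ⧸ W, f (g * h.out) = f (((g : Q ⧸ W) * h).out) := by
    intro h
    have h1 : g * h.out = ((g : Q ⧸ W) * h).out * ((((g : Q ⧸ W) * h).out)⁻¹ * (g * h.out)) := by
      group
    rw [h1, hf, hW _ (rep_mem g h), map_zero, add_zero]
  have har : ∀ h : Q ⧸ W, act (g * h.out) b = act (((g : Q ⧸ W) * h).out) b := by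
    intro h
    have := act_rep act hmul hone 1 g h b
    simpa using this
  have e1 : ρ g (∑ h : Q ⧸ W, act h.out b • f h.out) =
      ∑ h : Q ⧸ W, (act (((g : Q ⧸ W) * h).out) b • f (((g : Q ⧸ W) * h).out) -
        act (((g : Q ⧸ W) * h).out) b • f g) := by
    rw [map_sum]
    refine Finset.sum_congr rfl fun h _ => ?_
    rw [hρs, ← hmul, har, ← smul_sub]
    congr 1
    rw [← hfr, hf, add_sub_cancel_left]
  have e2 : (∑ h : Q ⧸ W, act (((g : Q ⧸ W) * h).out) b • f (((g : Q ⧸ W) * h).out)) =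
      ∑ h : Q ⧸ W, act h.out b • f h.out :=
    Equiv.sum_comp (Equiv.mulLeft (g : Q ⧸ W)) (fun h : Q ⧸ W => act h.out b • f h.out)
  have e3 : (∑ h : Q ⧸ W, act (((g : Q ⧸ W) * h).out) b) = 1 := by
    rw [← hb]
    exact Equiv.sum_comp (Equiv.mulLeft (g : Q ⧸ W)) (fun h : Q ⧸ W => act h.out b)
  rw [map_neg, e1, Finset.sum_sub_distrib, e2, ← Finset.sum_smul, e3, one_smul]
  abel

end Pool.Agent.Helper54.PW
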